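import Pool.Agent.Lib_helper61.TT.PL

/-!
# Traces of powers in terms of eigenvalues; integral eigenvalues
-/

set_option autoImplicit false

namespace Pool.Agent.TW

open Module Polynomial NumberField Pool.Agent.TT

theorem nt_trace {k V : Type} [Field k] [CharZero k] [IsAlgClosed k] [AddCommGroup V] [Module k V]
    [FiniteDimensional k V] (A : End k V) :
    ∃ s : Multiset k, (∀ μ ∈ s, A.HasEigenvalue μ) ∧
      ∀ r : ℕ, LinearMap.trace k V (A ^ r) = (s.map (fun x => x ^ r)).sum := by
  classical
  have hint : DirectSum.IsInternal fun μ ↦ A.maxGenEigenspace μ :=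
    DirectSum.isInternal_submodule_of_iSupIndep_of_iSup_eq_top
      A.independent_maxGenEigenspace (End.iSup_maxGenEigenspace_eq_top A)
  have hfin : {μ | A.maxGenEigenspace μ ≠ ⊥}.Finite :=
    WellFoundedGT.finite_ne_bot_of_iSupIndep A.independent_maxGenEigenspace
  set T : Finset k := hfin.toFinset with hT
  have htr : ∀ r : ℕ, LinearMap.trace k V (A ^ r) =
      ∑ μ ∈ T, (Module.finrank k (A.maxGenEigenspace μ) : k) * μ ^ r := by
    intro r
    have hcomm : Commute A (A ^ r) := Commute.pow_right (Commute.refl A) r
    rw [LinearMap.trace_eq_sum_trace_restrict' hint hfin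
      (fun μ => A.mapsTo_maxGenEigenspace_of_comm hcomm μ)]
    apply Finset.sum_congr rfl
    intro μ _
    set B : End k (A.maxGenEigenspace μ) :=
      A.restrict (A.mapsTo_maxGenEigenspace_of_comm rfl μ) with hB
    have h1 : (A ^ r).restrict (A.mapsTo_maxGenEigenspace_of_comm hcomm μ) = B ^ r := by
      have h5 : ∀ (r : ℕ) (x : A.maxGenEigenspace μ), (A ^ r) (x : V) = ((B ^ r) x : V) := by
        intro r
        induction r with
        | zero => intro x; simp
        | succ r ih =>
          intro x
          rw [pow_succ, pow_succ, Module.End.mul_apply, Module.End.mul_apply, ← ih (B x)]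
          rfl
      ext x
      exact h5 r x
    have hnil : IsNilpotent (B - algebraMap k _ μ) := by
      have := A.isNilpotent_restrict_maxGenEigenspace_sub_algebraMap μ
      exact this
    have h2 : IsNilpotent (B ^ r - algebraMap k (End k (A.maxGenEigenspace μ)) (μ ^ r)) := by
      rw [map_pow]
      have hc : Commute B (algebraMap k (End k (A.maxGenEigenspace μ)) μ) :=
        (Algebra.commutes μ B).symm
      rw [← hc.geom_sum₂_mul]
      apply Commute.isNilpotent_mul_left _ hnil
      apply Finset.sum_induction _ (fun x => Commute x (B - algebraMap k _ μ))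
      · intro a b ha hb
        exact ha.add_left hb
      · exact Commute.zero_left _
      · intro i _
        apply Commute.mul_left
        · apply Commute.pow_left
          exact (Commute.refl B).sub_right hc
        · apply Commute.pow_left
          exact hc.symm.sub_right (Commute.refl _)
    have h3 : LinearMap.trace k (A.maxGenEigenspace μ)
        (B ^ r - algebraMap k (End k (A.maxGenEigenspace μ)) (μ ^ r)) = 0 := by
      exact (LinearMap.isNilpotent_trace_of_isNilpotent h2).eq_zero
    have h4 : LinearMap.trace k (A.maxGenEigenspace μ)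
        (algebraMap k (End k (A.maxGenEigenspace μ)) (μ ^ r)) =
        (Module.finrank k (A.maxGenEigenspace μ) : k) * μ ^ r := by
      rw [Algebra.algebraMap_eq_smul_one, map_smul, LinearMap.trace_one, smul_eq_mul, mul_comm]
    rw [h1, ← h4, ← sub_eq_zero, ← map_sub, h3]
  have hpow : ∀ r : ℕ, LinearMap.trace k V (A ^ r) =
      ((∑ μ ∈ T, Multiset.replicate (Module.finrank k (A.maxGenEigenspace μ)) μ).map
        (fun x => x ^ r)).sum := by
    intro r
    rw [htr r]
    have h1 : ∀ (T : Finset k), ((∑ μ ∈ T, Multiset.replicate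
        (Module.finrank k (A.maxGenEigenspace μ)) μ).map (fun x => x ^ r)).sum =
        ∑ μ ∈ T, (Module.finrank k (A.maxGenEigenspace μ) : k) * μ ^ r := by
      intro T
      induction T using Finset.induction_on with
      | empty => simp
      | insert a T ha ih =>
        rw [Finset.sum_insert ha, Finset.sum_insert ha, Multiset.map_add, Multiset.sum_add, ih,
          Multiset.map_replicate, Multiset.sum_replicate, nsmul_eq_mul]
    rw [h1]
  refine ⟨∑ μ ∈ T, Multiset.replicate (Module.finrank k (A.maxGenEigenspace μ)) μ, ?_, hpow⟩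
  intro μ hμ
  rw [Multiset.mem_sum] at hμ
  obtain ⟨ν, hν, hμν⟩ := hμ
  rw [Multiset.mem_replicate] at hμν
  rw [hμν.2]
  rw [hT, Set.Finite.mem_toFinset] at hν
  exact Module.End.HasUnifEigenvalue.lt zero_lt_one (show A.HasUnifEigenvalue ν ⊤ from hν)

/-- An algebraic integer of `k` comes from an algebraic integer of `Qbar`. -/
theorem nt_lift {k : Type} [Field k] (ι : Qbar →+* k) {c : k} (hc : IsIntegral ℤ c) :
    ∃ z : 𝓞 Qbar, ι z = c := by
  obtain ⟨f, hf, hfc⟩ := hc
  have hsplit : (f.map (Int.castRingHom Qbar)).Splits := IsAlgClosed.splits _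
  have h1 : (f.map (Int.castRingHom k)) = (f.map (Int.castRingHom Qbar)).map ι := by
    rw [Polynomial.map_map]
    congr 1
    exact RingHom.ext_int _ _
  have hroots : (f.map (Int.castRingHom k)).roots = (f.map (Int.castRingHom Qbar)).roots.map ι := by
    rw [h1]
    exact hsplit.roots_map ι
  have hmem : c ∈ (f.map (Int.castRingHom k)).roots := by
    rw [Polynomial.mem_roots (hf.map _).ne_zero, Polynomial.IsRoot.def, Polynomial.eval_map]
    exact hfc
  rw [hroots, Multiset.mem_map] at hmem
  obtain ⟨z, hz, hzc⟩ := hmem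
  rw [Polynomial.mem_roots (hf.map _).ne_zero, Polynomial.IsRoot.def, Polynomial.eval_map] at hz
  exact ⟨⟨z, ⟨f, hf, hz⟩⟩, hzc⟩

/-- The traces of the powers of an endomorphism with integral eigenvalues come from algebraic
integers. -/
theorem nt_integral {k V : Type} [Field k] [CharZero k] [IsAlgClosed k] [AddCommGroup V]
    [Module k V] [FiniteDimensional k V] (A : End k V) (hA : ∀ c, A.HasEigenvalue c → IsIntegral ℤ c)
    (ι : Qbar →+* k) (r : ℕ) : ∃ z : 𝓞 Qbar, LinearMap.trace k V (A ^ r) = ι z := by
  obtain ⟨s, hs, hs2⟩ := nt_trace A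
  rw [hs2 r]
  have h1 : IsIntegral ℤ (s.map (fun x => x ^ r)).sum := by
    apply IsIntegral.multiset_sum
    intro x hx
    rw [Multiset.mem_map] at hx
    obtain ⟨y, hy, rfl⟩ := hx
    exact (hA y (hs y hy)).pow r
  obtain ⟨z, hz⟩ := nt_lift ι h1
  exact ⟨z, hz.symm⟩

end Pool.Agent.TW
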