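import Pool.Agent.Lib_helper61.TT.Main
import Pool.Agent.Lib_helper61.TW.Defs
import Pool.Agent.Lib_helper61.TW.NT

/-!
# No Tate classes: the general mechanism
-/

set_option autoImplicit false

namespace Pool.Agent.TW

open Finset NumberField Polynomial Pool.Agent.TT TensorProduct

/-- If the conjugates of the traces of the powers of Frobenius are small at one place above each of
infinitely many primes, then there are no Tate classes. -/
theorem core {K : Type} [Field K] [NumberField K] [Algebra K Qbar] {m : ℕ} (hm : 2 ≤ m)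
    {ζ : 𝓞 K} (hζ : IsPrimitiveRoot ζ m) {k j v : ℕ} (hvcop : v.Coprime m)
    (S : ∀ (F : Type) [Field F] [Fintype F], (𝓞 K →+* F) → 𝓞 K) (B' : Finset ℕ)
    (hS : ∀ (p : ℕ) [Fact p.Prime], p ∉ B' → m ∣ p - 1 → ∃ θ : ℝ, 0 ≤ θ ∧
      θ < ‖(p : PadicAlgCl p)‖ ^ j ∧ ∀ (τ : 𝓞 K →+* PadicAlgCl p), Function.Injective τ →
        ∀ n0 : ℕ, ‖τ ζ ^ v - n0‖ < 1 → ∀ r : ℕ, 1 ≤ r → ∀ (F : Type) [Field F] [Fintype F]
        [Algebra (ZMod p) F] (φ : 𝓞 K →+* F), Fintype.card F = p ^ r → φ ζ = n0 →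
        ‖τ (S F φ)‖ ≤ θ ^ r)
    {ℓ : ℕ} [hℓ : Fact ℓ.Prime] (ι : K →+* PadicAlgCl ℓ)
    {V : Type} [AddCommGroup V] [Module (PadicAlgCl ℓ) V] [FiniteDimensional (PadicAlgCl ℓ) V]
    (ρ : Representation (PadicAlgCl ℓ) (Qbar ≃ₐ[K] Qbar) V)
    {N : Type} [AddCommGroup N] [Module (PadicAlgCl ℓ) N] [FiniteDimensional (PadicAlgCl ℓ) N]
    (π : Representation (PadicAlgCl ℓ) (Qbar ≃ₐ[K] Qbar) N) (hπ : IntegralFrobenius π)
    (hρ : ∃ B : Finset ℕ, ∀ p : ℕ, p.Prime → p ∉ B → ∀ 𝔓 : Ideal (𝓞 Qbar), 𝔓.IsPrime →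
      (p : 𝓞 Qbar) ∈ 𝔓 → ∀ (F : Type) [Field F] [Fintype F] (φ : 𝓞 K →+* F),
      (∀ x : 𝓞 K, φ x = 0 ↔ algebraMap (𝓞 K) (𝓞 Qbar) x ∈ 𝔓) →
      ∀ σ : Qbar ≃ₐ[K] Qbar, (∀ x y : 𝓞 Qbar, (y : Qbar) = σ x → y - x ^ Fintype.card F ∈ 𝔓) →
        ((Fintype.card F : PadicAlgCl ℓ) - 1) ^ k * LinearMap.trace (PadicAlgCl ℓ) V (ρ σ⁻¹) =
          ι (S F φ))
    (H : Subgroup (Qbar ≃ₐ[K] Qbar)) (hH : IsOpen (H : Set (Qbar ≃ₐ[K] Qbar)))
    (W₁ W₂ : Submodule (PadicAlgCl ℓ) (V ⊗[PadicAlgCl ℓ] N)) (hW : W₁ ≤ W₂)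
    (hT : ∀ σ ∈ H, ∀ x ∈ W₂, cyc ℓ σ ^ j • ρ.tprod π σ x - x ∈ W₁) : W₂ ≤ W₁ := by
  classical
  obtain ⟨B, hB⟩ := hρ
  obtain ⟨Bπ, hBπ⟩ := hπ
  set d := Module.finrank (PadicAlgCl ℓ) (V ⊗[PadicAlgCl ℓ] N) with hd
  obtain ⟨p, hp, hpB, hpf⟩ := fr_main H hH (B ∪ (B' ∪ (Bπ ∪ Finset.range (ℓ + d + m + 1))))
  rw [Finset.mem_union, Finset.mem_union, Finset.mem_union, Finset.mem_range, not_or, not_or,
    not_or] at hpB
  obtain ⟨hpB, hpB', hpBπ, hpbig⟩ := hpB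
  have hpF : Fact p.Prime := ⟨hp⟩
  have hcopm : Nat.Coprime m p :=
    (Nat.coprime_of_lt_prime (by omega) (by omega) hp).symm
  -- the places
  have hκ0 : Nonempty (Qbar →+* PadicAlgCl p) := by
    have := Pool.Agent.DS.frx_alg
    exact ⟨(IsAlgClosed.lift (R := ℚ) (S := Qbar) (M := PadicAlgCl p) : Qbar →ₐ[ℚ] PadicAlgCl p)⟩
  obtain ⟨κ0⟩ := hκ0
  have hζbar : IsPrimitiveRoot (algebraMap K Qbar (ζ : K)) m :=
    (hζ.map_of_injective RingOfIntegers.coe_injective).map_of_injective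
      (algebraMap K Qbar).injective
  obtain ⟨g, hg⟩ := mn_conj hm hζbar hvcop
  set κ : Qbar →+* PadicAlgCl p := κ0.comp g with hκ
  set Q : Ideal (𝓞 Qbar) := plIdeal κ with hQ
  have hQp : Q.IsPrime := plIdeal_prime κ
  have hpQ : (p : 𝓞 Qbar) ∈ Q := pl_p_mem κ
  obtain ⟨σ, hσH, hσ⟩ := hpf Q hQp hpQ
  -- reduction
  have hchar : CharP (𝓞 Qbar ⧸ Q) p := Pool.Agent.DS.frx_charP hp Q hpQ
  let f : 𝓞 K →+* (𝓞 Qbar ⧸ Q) := (Ideal.Quotient.mk Q).comp (algebraMap (𝓞 K) (𝓞 Qbar))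
  have hf : ∀ x, f x ^ p = f x := by
    intro x
    have h1 := hσ (algebraMap (𝓞 K) (𝓞 Qbar) x) (algebraMap (𝓞 K) (𝓞 Qbar) x) (by
      have h2 : ((algebraMap (𝓞 K) (𝓞 Qbar) x : 𝓞 Qbar) : Qbar) = algebraMap K Qbar (x : K) := rfl
      rw [h2, AlgEquiv.commutes])
    rw [← Ideal.Quotient.eq_zero_iff_mem, map_sub, map_pow, sub_eq_zero] at h1
    exact h1.symm
  obtain ⟨φp, hφp⟩ := rm_exists f hf
  have hcastinj : Function.Injective (ZMod.castHom (dvd_refl p) (𝓞 Qbar ⧸ Q)) :=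
    ZMod.castHom_injective _
  have hφker : ∀ x : 𝓞 K, φp x = 0 ↔ algebraMap (𝓞 K) (𝓞 Qbar) x ∈ Q := by
    intro x
    rw [← Ideal.Quotient.eq_zero_iff_mem]
    change φp x = 0 ↔ f x = 0
    rw [← hφp x, map_eq_zero_iff _ hcastinj]
  set n0 : ℕ := (φp ζ).val with hn0
  have hp1 := hp.one_lt
  have hζn0 : ‖κ (algebraMap K Qbar (ζ : K)) - n0‖ < 1 := by
    have h1 : algebraMap (𝓞 K) (𝓞 Qbar) ζ - (n0 : 𝓞 Qbar) ∈ Q := by
      rw [← map_natCast (algebraMap (𝓞 K) (𝓞 Qbar)), ← map_sub, ← hφker, map_sub, map_natCast,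
        hn0, ZMod.natCast_zmod_val, sub_self]
    rw [hQ, mem_plIdeal] at h1
    have h2 : ((algebraMap (𝓞 K) (𝓞 Qbar) ζ - (n0 : 𝓞 Qbar) : 𝓞 Qbar) : Qbar) =
        algebraMap K Qbar (ζ : K) - n0 := by
      simp only [map_sub, map_natCast]
      rfl
    rw [h2, map_sub, map_natCast] at h1
    exact h1
  have hκζ : κ (algebraMap K Qbar (ζ : K)) = κ0 (algebraMap K Qbar (ζ : K)) ^ v := by
    rw [hκ, RingHom.comp_apply, hg, map_pow]
  -- `m` divides `p - 1`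
  have hmp : m ∣ p - 1 := by
    have h1 : φp ζ ≠ 0 := by
      intro h
      have h2 : φp ζ ^ m = 1 := by rw [← map_pow, hζ.pow_eq_one, map_one]
      rw [h, zero_pow (by omega)] at h2
      exact zero_ne_one h2
    have h2 : φp (ζ ^ (p - 1) - 1) = 0 := by
      rw [map_sub, map_pow, map_one, ZMod.pow_card_sub_one_eq_one h1, sub_self]
    rw [hφker, hQ, mem_plIdeal] at h2
    have h3 : ((algebraMap (𝓞 K) (𝓞 Qbar) (ζ ^ (p - 1) - 1) : 𝓞 Qbar) : Qbar) =
        algebraMap K Qbar (ζ : K) ^ (p - 1) - 1 := by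
      simp only [map_sub, map_pow, map_one]
      rfl
    rw [h3, map_sub, map_pow, map_one] at h2
    have h4 : κ (algebraMap K Qbar (ζ : K)) ^ (p - 1) = 1 := by
      apply lo_unique hcopm _ (one_pow m) h2
      rw [← pow_mul, mul_comm, pow_mul, ← map_pow, hζbar.pow_eq_one, map_one, one_pow]
    rw [← map_pow] at h4
    have h5 : algebraMap K Qbar (ζ : K) ^ (p - 1) = 1 := κ.injective (by rw [h4, map_one])
    exact hζbar.dvd_of_pow_eq_one _ h5
  -- finite fields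
  let Fr : ℕ → Type := fun r => GaloisField p r
  let _ : ∀ r, Fintype (GaloisField p r) := fun r => Fintype.ofFinite _
  have hcardF : ∀ r, 1 ≤ r → Fintype.card (GaloisField p r) = p ^ r := by
    intro r hr
    rw [← Nat.card_eq_fintype_card]
    exact GaloisField.card p r (by omega)
  let φ : ∀ r, 𝓞 K →+* GaloisField p r := fun r =>
    (algebraMap (ZMod p) (GaloisField p r)).comp φp
  have hφkerr : ∀ r, ∀ x : 𝓞 K, φ r x = 0 ↔ algebraMap (𝓞 K) (𝓞 Qbar) x ∈ Q := by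
    intro r x
    rw [← hφker]
    exact map_eq_zero_iff _ (algebraMap (ZMod p) (GaloisField p r)).injective
  obtain ⟨θ, hθ0, hθ, hθS⟩ := hS p hpB' hmp
  have hp0 : 0 < ‖(p : PadicAlgCl p)‖ := by
    rw [te_norm_p]
    positivity
  set τ : K →+* PadicAlgCl p := κ0.comp (algebraMap K Qbar) with hτ
  have hbound : ∀ r, 1 ≤ r → ‖τ (S (GaloisField p r) (φ r) : 𝓞 K)‖ ≤ θ ^ r := by
    intro r hr
    refine hθS (τ.comp (algebraMap (𝓞 K) K))
      (τ.injective.comp RingOfIntegers.coe_injective) n0 ?_ r hr (GaloisField p r) (φ r)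
      (hcardF r hr) ?_
    · have h2 : (τ.comp (algebraMap (𝓞 K) K)) ζ = κ0 (algebraMap K Qbar (ζ : K)) := rfl
      rw [h2, ← hκζ]
      exact hζn0
    · change algebraMap (ZMod p) (GaloisField p r) (φp ζ) = _
      rw [← map_natCast (algebraMap (ZMod p) (GaloisField p r)), hn0, ZMod.natCast_zmod_val]
  set A0 : Module.End (PadicAlgCl ℓ) V := ρ σ⁻¹ with hA0
  set t0 : ℕ → K := fun r => (S (GaloisField p r) (φ r) : K) / ((p : K) ^ r - 1) ^ k with ht0
  have htr0 : ∀ r, 1 ≤ r → LinearMap.trace (PadicAlgCl ℓ) V (A0 ^ r) = ι (t0 r) := by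
    intro r hr
    have h1 := hB p hp hpB Q hQp hpQ (GaloisField p r) (φ r) (hφkerr r) (σ ^ r) (by
      intro x y hxy
      rw [hcardF r hr]
      exact pl_frob_pow hσ r x y hxy)
    rw [hcardF r hr] at h1
    have h2 : ρ (σ ^ r)⁻¹ = A0 ^ r := by
      rw [hA0, ← map_pow, inv_pow]
    rw [h2] at h1
    have h3 : ((p : PadicAlgCl ℓ) ^ r - 1) ≠ 0 := by
      rw [sub_ne_zero]
      have : (1 : ℕ) < p ^ r := Nat.one_lt_pow (by omega) hp1
      intro h
      have h4 : ((p ^ r : ℕ) : PadicAlgCl ℓ) = ((1 : ℕ) : PadicAlgCl ℓ) := by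
        push_cast
        exact h
      have := Nat.cast_injective h4
      omega
    rw [ht0]
    simp only
    have hden : ι (((p : K) ^ r - 1) ^ k) = ((p : PadicAlgCl ℓ) ^ r - 1) ^ k := by
      rw [map_pow, map_sub, map_pow, map_natCast, map_one]
    rw [map_div₀, hden, ← h1, eq_div_iff (pow_ne_zero _ h3)]
    push_cast
    ring
  -- the second factor
  obtain ⟨ι', hι'⟩ : ∃ ι' : Qbar →+* PadicAlgCl ℓ, ∀ x : K, ι' (algebraMap K Qbar x) = ι x := by
    have h0 := Pool.Agent.DS.frx_alg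
    have h1 : Algebra.IsAlgebraic K Qbar := Algebra.IsAlgebraic.tower_top (K := ℚ) K
    let _ : Algebra K (PadicAlgCl ℓ) := ι.toAlgebra
    let F : Qbar →ₐ[K] PadicAlgCl ℓ := IsAlgClosed.lift (R := K) (S := Qbar) (M := PadicAlgCl ℓ)
    exact ⟨(F : Qbar →+* PadicAlgCl ℓ), fun x => F.commutes x⟩
  have hint := nt_integral (π σ⁻¹) (hBπ p hp hpBπ Q hQp hpQ σ hσ) ι'
  choose z hz using hint
  set A : Module.End (PadicAlgCl ℓ) (V ⊗[PadicAlgCl ℓ] N) := ρ.tprod π σ⁻¹ with hA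
  set t : ℕ → Qbar := fun r => algebraMap K Qbar (t0 r) * z r with ht
  have htr : ∀ r, 1 ≤ r → r ≤ d →
      LinearMap.trace (PadicAlgCl ℓ) (V ⊗[PadicAlgCl ℓ] N) (A ^ r) = ι' (t r) := by
    intro r hr _
    have h1 : A ^ r = TensorProduct.map (A0 ^ r) ((π σ⁻¹) ^ r) := by
      rw [hA, hA0, ← map_pow, ← map_pow, ← map_pow]
      rfl
    rw [h1, LinearMap.trace_tensorProduct', htr0 r hr, hz r, ht]
    simp only
    rw [map_mul, hι']
  have hτt : ∀ r, 1 ≤ r → r ≤ d → ‖κ0 (t r)‖ ≤ θ ^ r := by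
    intro r hr _
    have hz1 : ‖κ0 (z r)‖ ≤ 1 := te_mem.mp (pl_int κ0 (z r))
    have ht0r : ‖τ (t0 r)‖ ≤ θ ^ r := by
      rw [ht0]
      simp only
      have h1 : ‖(p : PadicAlgCl p) ^ r - 1‖ = 1 := by
        have h2 : Nat.Coprime (p ^ r - 1) p := by
          have h3 : Nat.Coprime (p ^ r - 1) (p ^ r) := by
            have h4 : p ^ r = (p ^ r - 1) + 1 := by
              have : 1 ≤ p ^ r := Nat.one_le_pow _ _ hp.pos
              omega
            conv => rhs; rw [h4]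
            exact (Nat.coprime_self_add_right).mpr (Nat.coprime_one_right _)
          exact Nat.Coprime.coprime_dvd_right (dvd_pow_self p (by omega)) h3
        have h5 := te_norm_natCast h2
        rw [Nat.cast_sub (Nat.one_le_pow _ _ hp.pos)] at h5
        push_cast at h5
        exact h5
      rw [map_div₀, map_pow, map_sub, map_pow, map_natCast, map_one, norm_div, norm_pow, h1,
        one_pow, div_one]
      exact hbound r hr
    rw [ht]
    simp only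
    rw [map_mul, norm_mul]
    calc ‖κ0 (algebraMap K Qbar (t0 r))‖ * ‖κ0 (z r)‖ ≤ θ ^ r * 1 :=
          mul_le_mul ht0r hz1 (norm_nonneg _) (pow_nonneg hθ0 r)
      _ = θ ^ r := mul_one _
  have hnat : ∀ i : ℕ, 1 ≤ i → i ≤ d → ‖(i : PadicAlgCl p)‖ = 1 := by
    intro i h1 h2
    apply te_norm_natCast
    exact (Nat.coprime_of_lt_prime (by omega) (by omega) hp).symm
  -- the final contradiction
  by_contra hcon
  have hcyc : cyc ℓ σ = (p : PadicAlgCl ℓ) := pl_cyc (by omega) κ hσ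
  have heig : A.HasEigenvalue (ι' ((p : Qbar) ^ j)) := by
    rw [map_pow, map_natCast]
    set C : Module.End (PadicAlgCl ℓ) (V ⊗[PadicAlgCl ℓ] N) :=
      (p : PadicAlgCl ℓ) ^ j • ρ.tprod π σ - 1 with hC
    have hCW : ∀ x ∈ W₂, C x ∈ W₁ := by
      intro x hx
      have h1 := hT σ hσH x hx
      rw [hcyc] at h1
      exact h1
    have hker : ∃ x : V ⊗[PadicAlgCl ℓ] N, x ≠ 0 ∧ C x = 0 := by
      by_contra hno
      push Not at hno
      have hinj : Function.Injective C := by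
        rw [injective_iff_map_eq_zero]
        intro x hx
        by_contra hx0
        exact hno x hx0 hx
      have h1 : Submodule.map C W₂ ≤ W₁ := by
        rw [Submodule.map_le_iff_le_comap]
        intro x hx
        exact hCW x hx
      have h2 : Module.finrank (PadicAlgCl ℓ) (Submodule.map C W₂) =
          Module.finrank (PadicAlgCl ℓ) W₂ :=
        (Submodule.equivMapOfInjective C hinj W₂).finrank_eq.symm
      have h3 := Submodule.finrank_mono h1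
      have h4 : W₁ < W₂ := lt_of_le_of_ne hW (by
        intro h
        exact hcon h.ge)
      have h5 := Submodule.finrank_lt_finrank_of_lt h4
      omega
    obtain ⟨x, hx0, hx⟩ := hker
    apply Module.End.hasEigenvalue_of_hasEigenvector (x := x)
    rw [Module.End.hasEigenvector_iff, Module.End.mem_eigenspace_iff]
    refine ⟨?_, hx0⟩
    have h1 : (p : PadicAlgCl ℓ) ^ j • ρ.tprod π σ x = x := by
      have h2 : C x = (p : PadicAlgCl ℓ) ^ j • ρ.tprod π σ x - x := rfl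
      rw [h2, sub_eq_zero] at hx
      exact hx
    have h2 : A (ρ.tprod π σ x) = x := by
      rw [hA, ← Module.End.mul_apply, ← map_mul, inv_mul_cancel, map_one]
      rfl
    calc A x = A ((p : PadicAlgCl ℓ) ^ j • ρ.tprod π σ x) := by rw [h1]
      _ = (p : PadicAlgCl ℓ) ^ j • x := by rw [map_smul, h2]
  have hfin := nw_main ι' κ0 A hθ0 t htr hτt hnat ((p : Qbar) ^ j) heig
  rw [map_pow, map_natCast, norm_pow] at hfin
  exact absurd hfin (not_le.mpr hθ)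

end Pool.Agent.TW
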