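import Pool.Agent.Lib_helper61.TW.Defs
import Pool.Agent.Lib_helper61.TP.LB
import Pool.Agent.Lib_helper7.SLP.WeightedMv

/-!
# The local bound for the character sums on weighted projective spaces
-/

set_option autoImplicit false

namespace Pool.Agent.TW

open Finset NumberField Pool.Agent.TT Pool.Agent.TP

/-- The local bound. -/
theorem lw_bound {K : Type} [Field K] {p : ℕ} [hp : Fact p.Prime] (hp2 : 2 < p) {m : ℕ}
    (hm : 2 ≤ m) {ζ : 𝓞 K} (hζ : IsPrimitiveRoot ζ m) (D : Arrangement K)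
    (ha : ∀ i, ¬ m ∣ D.a i) (hb : ∀ j, ¬ m ∣ D.b j) {u v : ℕ} (hu : u.Coprime m)
    (huv : u * v ≡ 1 [MOD m]) {h : ℕ}
    (hh : D.k * h * m + degree m u D < (D.k * (D.s + 1) + D.r + 1) * m)
    (hmp : m ∣ p - 1) (τ : 𝓞 K →+* PadicAlgCl p) (hτ : Function.Injective τ)
    {r : ℕ} {F : Type} [Field F] [Fintype F] [Algebra (ZMod p) F]
    (hcard : Fintype.card F = p ^ r) (φ : 𝓞 K →+* F)
    {n0 : ℕ} (hn0 : φ ζ = n0) (hn1 : ‖τ ζ ^ v - n0‖ < 1) :
    ‖τ (charSum m ζ φ D)‖ ≤ (‖(p : PadicAlgCl p)‖ ^ h) ^ r := by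
  classical
  have hp1 := hp.out.one_lt
  obtain ⟨ω, hω⟩ := te_exists F hcard
  obtain ⟨ξ, hξ, -, -, -, -⟩ := te_zeta p
  have hdeg : SlopeLP.deg p F = r := by
    have h1 : Fintype.card F = p ^ SlopeLP.deg p F := SlopeLP.card_eq (P := p)
    rw [hcard] at h1
    exact (Nat.pow_right_injective hp1 h1).symm
  have hme : m ∣ p ^ r - 1 := hmp.trans (Nat.sub_one_dvd_pow_sub_one p r)
  have hmain := SlopeLP.slope_weighted_mv (P := p) hξ te_norm_p_lt hp2 (F := F) (ω := ω) hω hmp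
    D.r D.s D.k D.k_pos
    (fun i => u * D.a i % m) (fun j => u * D.b j % m)
    (fun i => Nat.pos_of_ne_zero fun h => ha i
      (Nat.Coprime.dvd_of_dvd_mul_left hu.symm (Nat.dvd_of_mod_eq_zero h)))
    (fun i => Nat.mod_lt _ (by omega))
    (fun j => Nat.pos_of_ne_zero fun h => hb j
      (Nat.Coprime.dvd_of_dvd_mul_left hu.symm (Nat.dvd_of_mod_eq_zero h)))
    (fun j => Nat.mod_lt _ (by omega)) h hh
    (fun i l => φ (D.f i l)) (fun j t => φ (D.c j t)) (fun j => (D.g j).map φ)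
    (fun j => (D.homog j).map φ)
  rw [hdeg, pow_mul] at hmain
  refine le_trans (le_of_eq ?_) hmain
  unfold charSum
  rw [map_mul, map_pow, map_neg, map_one, norm_mul, norm_pow, norm_neg, norm_one, one_pow, one_mul,
    map_sum]
  congr 1
  apply Finset.sum_congr rfl
  intro x _
  rw [map_sum]
  apply Finset.sum_congr rfl
  intro y _
  rw [lb_symbol hm hζ hu huv hmp τ hτ hcard φ hn0 hn1 hω, map_mul, map_prod, map_prod, mul_pow,
    ← Finset.prod_pow, ← Finset.prod_pow]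
  congr 1
  · apply Finset.prod_congr rfl
    intro i _
    rw [map_pow, lb_exp hm hu hcard hme ω (ha i)]
  · apply Finset.prod_congr rfl
    intro j _
    rw [map_pow, lb_exp hm hu hcard hme ω (hb j), MvPolynomial.eval_map]

end Pool.Agent.TW
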