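import Pool.Agent.Lib_helper61.TW.Core
import Pool.Agent.Lib_helper61.TW.LB

/-!
# No Tate classes for products of covers of weighted projective spaces
-/

set_option autoImplicit false

namespace Pool.Agent.TW

open Finset NumberField Pool.Agent.TT TensorProduct

theorem main {K : Type} [Field K] [NumberField K] [Algebra K Qbar] {m : ℕ} (hm : 2 ≤ m)
    {ζ : 𝓞 K} (hζ : IsPrimitiveRoot ζ m) {q : ℕ} (D : Fin q → Arrangement K)
    (ha : ∀ β i, ¬ m ∣ (D β).a i) (hb : ∀ β i, ¬ m ∣ (D β).b i) {u : ℕ} (hu : u.Coprime m)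
    (h : Fin q → ℕ)
    (hh : ∀ β, (D β).k * h β * m + degree m u (D β) <
      ((D β).k * ((D β).s + 1) + (D β).r + 1) * m) {j : ℕ} (hj : j < ∑ β, h β)
    {ℓ : ℕ} [hℓ : Fact ℓ.Prime] (ι : K →+* PadicAlgCl ℓ)
    {V : Type} [AddCommGroup V] [Module (PadicAlgCl ℓ) V] [FiniteDimensional (PadicAlgCl ℓ) V]
    (ρ : Representation (PadicAlgCl ℓ) (Qbar ≃ₐ[K] Qbar) V) (hρ : HasTraces ρ ι m ζ D)
    {N : Type} [AddCommGroup N] [Module (PadicAlgCl ℓ) N] [FiniteDimensional (PadicAlgCl ℓ) N]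
    (π : Representation (PadicAlgCl ℓ) (Qbar ≃ₐ[K] Qbar) N) (hπ : IntegralFrobenius π)
    (H : Subgroup (Qbar ≃ₐ[K] Qbar)) (hH : IsOpen (H : Set (Qbar ≃ₐ[K] Qbar)))
    (W₁ W₂ : Submodule (PadicAlgCl ℓ) (V ⊗[PadicAlgCl ℓ] N)) (hW : W₁ ≤ W₂)
    (hT : ∀ σ ∈ H, ∀ x ∈ W₂, cyc ℓ σ ^ j • ρ.tprod π σ x - x ∈ W₁) : W₂ ≤ W₁ := by
  classical
  obtain ⟨v, huv⟩ : ∃ v, u * v ≡ 1 [MOD m] := by
    obtain ⟨v, _, hv⟩ := Nat.exists_mul_mod_eq_one_of_coprime hu (by omega)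
    exact ⟨v, by rw [Nat.ModEq, hv, Nat.mod_eq_of_lt (by omega)]⟩
  have hvcop : v.Coprime m := by
    have h1 : (u * v).Coprime m := by
      rw [Nat.Coprime, Nat.ModEq.gcd_eq huv, Nat.gcd_one_left]
    exact Nat.Coprime.coprime_mul_left h1
  refine core (k := q) (j := j) hm hζ hvcop
    (fun F _ _ φ => ∏ β, charSum m ζ φ (D β)) (Finset.range 3) ?_ ι ρ π hπ hρ H hH W₁ W₂ hW hT
  intro p hp hpB hmp
  rw [Finset.mem_range, not_lt] at hpB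
  have hp0 : 0 < ‖(p : PadicAlgCl p)‖ := by
    rw [te_norm_p]
    have := hp.out.pos
    positivity
  have hp1 : ‖(p : PadicAlgCl p)‖ < 1 := te_norm_p_lt
  refine ⟨‖(p : PadicAlgCl p)‖ ^ ∑ β, h β, by positivity, ?_, ?_⟩
  · exact pow_lt_pow_right_of_lt_one₀ hp0 hp1 hj
  · intro τ hτ n0 hn1 r hr F _ _ _ φ hcard hn0
    rw [map_prod, norm_prod, ← Finset.prod_pow_eq_pow_sum, ← Finset.prod_pow]
    apply Finset.prod_le_prod (fun _ _ => norm_nonneg _)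
    intro β _
    exact lw_bound (by omega) hm hζ (D β) (ha β) (hb β) hu huv (hh β) hmp τ hτ hcard φ hn0 hn1

end Pool.Agent.TW
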